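import Pool.Agent.H91.Gol5

set_option autoImplicit false

open Pool.Agent.H91.Gol in
theorem Pool.Agent.Results.MP_140d1b_an.Large.result :
    ∀ p : ℝ, 14 ≤ p → rad p ≤ 497 / 1000 :=
  main.2.2.1
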