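import Pool.Agent.H91.Gol5

set_option autoImplicit false

open Pool.Agent.H91.Gol in
theorem Pool.Agent.Results.MP_140d1b_an.Limit.result :
    Filter.Tendsto rad Filter.atTop (nhds (√2 - 1)) :=
  main.2.2.2
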