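import Pool.Agent.H91.Gol5

set_option autoImplicit false

open Pool.Agent.H91.Gol in
theorem Pool.Agent.Results.MP_140d1b_an.Small.result :
    ∀ p : ℝ, 0 < p → p ≤ 2 → rad p = 1 / 2 :=
  main.1
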